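import Mathlib

/-!
# Contracted modular numerical semigroups admit Toms decompositions
-/

set_option autoImplicit false

namespace Pool.Agent.Results.MP_94066b_nt.AllTomsDecompositions

/-- The set `T(a,b,c)` of the integers `x` with `a x mod b ≤ x - c`. -/
def T (a b c : ℕ) : Set ℤ := {x | ((a : ℤ) * x) % (b : ℤ) ≤ x - c}

/-- The contracted modular numerical semigroup `T(a,b,c) ∪ {0}`, as a subset of `ℤ`. -/
def contracted (a b c : ℕ) : Set ℤ := T a b c ∪ {0}

/-- `S` admits a Toms decomposition. Here `AddSubmonoid.closure {q, m}` is the submonoid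
`⟨q, m⟩` of `ℕ`. -/
def HasTomsDecomposition (S : Set ℤ) : Prop :=
  ∃ (L n : ℕ) (q m : Fin n → ℕ), 0 < L ∧ 0 < n ∧
    (∀ i, 0 < q i ∧ 0 < m i ∧ Nat.Coprime (q i) (m i) ∧ Nat.Coprime L (m i) ∧
      Nat.Coprime L (q i)) ∧
    S = {x : ℤ | ∃ z : ℕ, x = z ∧ ∀ i, L * z ∈ AddSubmonoid.closure {q i, m i}}

theorem mem_closure_pair {q m x : ℕ} : x ∈ AddSubmonoid.closure {q, m} ↔
    ∃ u v : ℕ, u * q + v * m = x := by
  rw [AddSubmonoid.mem_closure_pair]
  simp only [smul_eq_mul]

/-! ### One gap -/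

/-- the residue class condition -/
theorem exists_residue (A q L m0 : ℤ) (hq : 0 < q) (h : IsCoprime A q) :
    ∃ m, m0 ≤ m ∧ m < m0 + q ∧ q ∣ L + A * m := by
  obtain ⟨u, v, huv⟩ := h
  refine ⟨m0 + (-(L * u) - m0) % q, ?_, ?_, ?_⟩
  · have := Int.emod_nonneg (-(L * u) - m0) hq.ne'
    linarith
  · have := Int.emod_lt_of_pos (-(L * u) - m0) hq
    linarith
  · have h1 : (-(L * u) - m0) % q = (-(L * u) - m0) - q * ((-(L * u) - m0) / q) := by
      have := Int.emod_add_mul_ediv (-(L * u) - m0) q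
      linarith
    rw [h1]
    refine ⟨L * v - A * ((-(L * u) - m0) / q), ?_⟩
    have h2 : L + A * (m0 + (-(L * u) - m0 - q * ((-(L * u) - m0) / q))) =
        L * (1 - u * A) - A * (q * ((-(L * u) - m0) / q)) := by ring
    rw [h2]
    have h3 : 1 - u * A = v * q := by linarith
    rw [h3]
    ring

/-- The data for one gap `g`, with the slope window `(k/g, (k+1)/g)`. -/
theorem exists_pair (g k L : ℤ) (hg : 1 ≤ g)
    (hL : 4 * g ^ 2 * (4 * g - 1) * (4 * g - 2) ≤ L) :
    ∃ m B : ℤ, 0 < m ∧ (4 * g - 2) * m ≤ L ∧ L < (4 * g - 1) * m ∧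
      B * (4 * g ^ 2) - (4 * g * k + 1) * m = L := by
  have hcop : IsCoprime (4 * g * k + 1) (4 * g ^ 2) := by
    refine ⟨1 - 4 * g * k, 4 * k ^ 2, ?_⟩
    ring
  have hq : 0 < 4 * g ^ 2 := by positivity
  have h4 : 0 < 4 * g - 1 := by linarith
  obtain ⟨m, h1, h2, B, hB⟩ := exists_residue (4 * g * k + 1) (4 * g ^ 2) L (L / (4 * g - 1) + 1)
    hq hcop
  have h5 : L < (4 * g - 1) * (L / (4 * g - 1) + 1) := by
    have := Int.lt_ediv_add_one_mul_self L h4
    linarith
  have h6 : (4 * g - 1) * (L / (4 * g - 1)) ≤ L := Int.mul_ediv_self_le h4.ne'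
  have h7 : 0 ≤ L := by
    have : 0 ≤ 4 * g ^ 2 * (4 * g - 1) * (4 * g - 2) := by
      have : 0 ≤ 4 * g - 2 := by linarith
      positivity
    linarith
  have h8 : 0 ≤ L / (4 * g - 1) := Int.ediv_nonneg h7 h4.le
  refine ⟨m, B, by linarith, ?_, ?_, ?_⟩
  · have h9 : m ≤ L / (4 * g - 1) + 4 * g ^ 2 := by linarith
    -- multiply by (4g-1)(4g-2)
    have h10 : (4 * g - 1) * ((4 * g - 2) * m) ≤ (4 * g - 1) * L := by
      have h11 : (4 * g - 2) * m ≤ (4 * g - 2) * (L / (4 * g - 1) + 4 * g ^ 2) :=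
        mul_le_mul_of_nonneg_left h9 (by linarith)
      calc (4 * g - 1) * ((4 * g - 2) * m)
          ≤ (4 * g - 1) * ((4 * g - 2) * (L / (4 * g - 1) + 4 * g ^ 2)) :=
            mul_le_mul_of_nonneg_left h11 h4.le
        _ = (4 * g - 2) * ((4 * g - 1) * (L / (4 * g - 1))) +
            4 * g ^ 2 * (4 * g - 1) * (4 * g - 2) := by ring
        _ ≤ (4 * g - 2) * L + L := by
            have := mul_le_mul_of_nonneg_left h6 (by linarith : (0 : ℤ) ≤ 4 * g - 2)
            linarith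
        _ = (4 * g - 1) * L := by ring
    exact le_of_mul_le_mul_left h10 h4
  · have : (4 * g - 1) * (L / (4 * g - 1) + 1) ≤ (4 * g - 1) * m :=
      mul_le_mul_of_nonneg_left h1 h4.le
    linarith
  · linarith

/-- elements whose slope lies in the window belong to the semigroup -/
theorem mem_of_slope {g k L m B s y : ℤ} (hg : 1 ≤ g) (hm : 0 < m)
    (h1 : (4 * g - 2) * m ≤ L) (hB : B * (4 * g ^ 2) - (4 * g * k + 1) * m = L)
    (hs : 0 < s) (hy1 : k * s < y * g) (hy2 : y * g < (k + 1) * s) :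
    ∃ u v : ℤ, 0 ≤ u ∧ 0 ≤ v ∧ u * (4 * g ^ 2) + v * m = L * s := by
  have hq : 0 < 4 * g ^ 2 := by positivity
  by_cases hs4 : s ≤ 4 * g
  · refine ⟨B * s - y * m, y * (4 * g ^ 2) - (4 * g * k + 1) * s, ?_, ?_, ?_⟩
    · -- multiply by q
      have h2 : 0 ≤ (4 * g ^ 2) * (B * s - y * m) := by
        have h3 : (4 * g ^ 2) * (B * s - y * m) = L * s + m * (s - 4 * g * (y * g - k * s)) := by
          rw [← hB]; ring
        rw [h3]
        have h4 : y * g - k * s ≤ s - 1 := by
          have : (k + 1) * s = k * s + s := by ring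
          omega
        have h5 : 4 * g * (y * g - k * s) ≤ 4 * g * (s - 1) :=
          mul_le_mul_of_nonneg_left h4 (by linarith)
        have h6 : m * (s - 4 * g * (s - 1)) ≤ m * (s - 4 * g * (y * g - k * s)) :=
          mul_le_mul_of_nonneg_left (by linarith) hm.le
        have h7 : (4 * g - 2) * m * s ≤ L * s := mul_le_mul_of_nonneg_right h1 hs.le
        have h8 : 0 ≤ m * (4 * g - s) := mul_nonneg hm.le (by linarith)
        nlinarith
      exact nonneg_of_mul_nonneg_right h2 hq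
    · have h4 : 1 ≤ y * g - k * s := by omega
      have h5 : 4 * g * 1 ≤ 4 * g * (y * g - k * s) :=
        mul_le_mul_of_nonneg_left h4 (by linarith)
      have h6 : y * (4 * g ^ 2) - (4 * g * k + 1) * s = 4 * g * (y * g - k * s) - s := by ring
      linarith
    · rw [← hB]; ring
  · push Not at hs4
    -- the least integer above the lower slope
    obtain ⟨y', hy1', hy2'⟩ : ∃ y' : ℤ, (4 * g * k + 1) * s ≤ y' * (4 * g ^ 2) ∧
        y' * (4 * g ^ 2) < (4 * g * k + 1) * s + 4 * g ^ 2 := by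
      refine ⟨-((-((4 * g * k + 1) * s)) / (4 * g ^ 2)), ?_, ?_⟩
      · have := Int.ediv_mul_le (-((4 * g * k + 1) * s)) hq.ne'
        linarith
      · have := Int.lt_ediv_add_one_mul_self (-((4 * g * k + 1) * s)) hq
        linarith
    refine ⟨B * s - y' * m, y' * (4 * g ^ 2) - (4 * g * k + 1) * s, ?_, by linarith, ?_⟩
    · have h2 : 0 ≤ (4 * g ^ 2) * (B * s - y' * m) := by
        have h3 : (4 * g ^ 2) * (B * s - y' * m) =
            L * s - m * (y' * (4 * g ^ 2) - (4 * g * k + 1) * s) := by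
          rw [← hB]; ring
        rw [h3]
        have h4 : m * (y' * (4 * g ^ 2) - (4 * g * k + 1) * s) ≤ m * (4 * g ^ 2) :=
          mul_le_mul_of_nonneg_left (by linarith) hm.le
        have h7 : (4 * g - 2) * m * s ≤ L * s := mul_le_mul_of_nonneg_right h1 hs.le
        have h8 : (4 * g - 2) * m * (4 * g) ≤ (4 * g - 2) * m * s :=
          mul_le_mul_of_nonneg_left hs4.le (mul_nonneg (by linarith) hm.le)
        have h9 : 0 ≤ m * (g * (12 * g - 8)) :=
          mul_nonneg hm.le (mul_nonneg (by linarith) (by linarith))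
        nlinarith
      exact nonneg_of_mul_nonneg_right h2 hq
    · rw [← hB]; ring

/-- the gap itself is not in the semigroup -/
theorem not_mem_gap {g k L m B u v : ℤ} (hg : 1 ≤ g) (hm : 0 < m) (hL0 : 0 < L)
    (h2 : L < (4 * g - 1) * m) (hB : B * (4 * g ^ 2) - (4 * g * k + 1) * m = L)
    (hcop : IsCoprime L (4 * g ^ 2)) (hu : 0 ≤ u) (hv : 0 ≤ v)
    (h : u * (4 * g ^ 2) + v * m = L * g) : False := by
  have hq : 0 < 4 * g ^ 2 := by positivity
  have h3 : (4 * g ^ 2) * (u * (4 * g * k + 1) + v * B) = L * ((4 * g * k + 1) * g + v) := by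
    have e1 : (4 * g ^ 2) * (u * (4 * g * k + 1) + v * B) =
        (4 * g * k + 1) * (u * (4 * g ^ 2)) + v * (B * (4 * g ^ 2)) := by ring
    have e2 : B * (4 * g ^ 2) = L + (4 * g * k + 1) * m := by linarith
    have e3 : u * (4 * g ^ 2) = L * g - v * m := by linarith
    rw [e1, e2, e3]; ring
  obtain ⟨y, hy⟩ : L ∣ u * (4 * g * k + 1) + v * B :=
    hcop.dvd_of_dvd_mul_left ⟨_, h3⟩
  rw [hy] at h3
  have h4 : (4 * g ^ 2) * y = (4 * g * k + 1) * g + v := by
    have : L * ((4 * g ^ 2) * y) = L * ((4 * g * k + 1) * g + v) := by rw [← h3]; ring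
    exact mul_left_cancel₀ hL0.ne' this
  have h5 : m * y = B * g - u := by
    have : (4 * g ^ 2) * (m * y) = (4 * g ^ 2) * (B * g - u) := by
      have e1 : (4 * g ^ 2) * (m * y) = m * ((4 * g ^ 2) * y) := by ring
      have e2 : (4 * g ^ 2) * (B * g - u) = (B * (4 * g ^ 2)) * g - u * (4 * g ^ 2) := by ring
      have e3 : B * (4 * g ^ 2) = L + (4 * g * k + 1) * m := by linarith
      have e4 : u * (4 * g ^ 2) = L * g - v * m := by linarith
      rw [e1, e2, e3, e4, h4]; ring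
    exact mul_left_cancel₀ hq.ne' this
  have h6 : k < y := by
    by_contra hcon
    push Not at hcon
    have : (4 * g ^ 2) * y ≤ (4 * g ^ 2) * k := mul_le_mul_of_nonneg_left hcon hq.le
    nlinarith
  have h7 : y < k + 1 := by
    by_contra hcon
    push Not at hcon
    have e1 : m * (k + 1) ≤ m * y := mul_le_mul_of_nonneg_left hcon hm.le
    have e2 : (4 * g ^ 2) * (m * (k + 1)) ≤ (4 * g ^ 2) * (B * g) :=
      mul_le_mul_of_nonneg_left (by linarith) hq.le
    have e3 : (4 * g ^ 2) * (B * g) = (L + (4 * g * k + 1) * m) * g := by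
      have : B * (4 * g ^ 2) = L + (4 * g * k + 1) * m := by linarith
      rw [← this]; ring
    have e4 : (L + (4 * g * k + 1) * m) * g < ((4 * g - 1) * m + (4 * g * k + 1) * m) * g :=
      mul_lt_mul_of_pos_right (by linarith) (by linarith)
    nlinarith
  omega

/-- the slopes of the elements of a contracted modular semigroup -/
theorem slope {a b c g s : ℤ} (hb : 0 < b) (hc : 0 ≤ c) (hg : 1 ≤ g) (hs : 1 ≤ s)
    (hgap : g - c < (a * g) % b) (hmem : (a * s) % b ≤ s - c) :
    ∃ y : ℤ, (a * g / b) * s < y * g ∧ y * g < (a * g / b + 1) * s := by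
  have eg := Int.emod_add_mul_ediv (a * g) b
  have es := Int.emod_add_mul_ediv (a * s) b
  have rg := Int.emod_lt_of_pos (a * g) hb
  have rs := Int.emod_nonneg (a * s) hb.ne'
  set k := a * g / b with hk
  rcases lt_trichotomy s g with h | h | h
  · refine ⟨a * s / b, ?_, ?_⟩
    · set y := a * s / b
      have h1 : b * k < (a - 1) * g + c := by linarith
      have h2 : (a - 1) * s + c ≤ b * y := by linarith
      have h3 : b * k * s < ((a - 1) * g + c) * s := mul_lt_mul_of_pos_right h1 (by linarith)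
      have h4 : ((a - 1) * s + c) * g ≤ b * y * g := mul_le_mul_of_nonneg_right h2 (by linarith)
      have h5 : c * s ≤ c * g := mul_le_mul_of_nonneg_left h.le hc
      have h6 : b * (k * s) < b * (y * g) := by nlinarith
      exact lt_of_mul_lt_mul_left h6 hb.le
    · set y := a * s / b
      have h1 : b * y ≤ a * s := by linarith
      have h2 : a * g < b * (k + 1) := by linarith
      have h3 : b * y * g ≤ a * s * g := mul_le_mul_of_nonneg_right h1 (by linarith)
      have h4 : a * g * s < b * (k + 1) * s := mul_lt_mul_of_pos_right h2 (by linarith)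
      have h6 : b * (y * g) < b * ((k + 1) * s) := by nlinarith
      exact lt_of_mul_lt_mul_left h6 hb.le
  · subst h
    exfalso
    linarith
  · have hg0 : 0 < g := by linarith
    refine ⟨k * s / g + 1, ?_, ?_⟩
    · have := Int.lt_ediv_add_one_mul_self (k * s) hg0
      exact this
    · have := Int.ediv_mul_le (k * s) hg0.ne'
      nlinarith

/-- One gap of a contracted modular semigroup is removed by a pair `(q, m)`. -/
theorem one_gap (a b c g L : ℕ) (hb : 0 < b) (hg : 1 ≤ g) (hgap : (g : ℤ) ∉ T a b c)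
    (hL : 4 * (g : ℤ) ^ 2 * (4 * g - 1) * (4 * g - 2) ≤ L) (hLq : 4 * g ^ 2 < L)
    (hp : L.Prime) :
    ∃ q m : ℕ, 0 < q ∧ 0 < m ∧ Nat.Coprime q m ∧ Nat.Coprime L m ∧ Nat.Coprime L q ∧
      (∀ s : ℕ, (s : ℤ) ∈ T a b c → 1 ≤ s → L * s ∈ AddSubmonoid.closure {q, m}) ∧
      L * g ∉ AddSubmonoid.closure {q, m} := by
  have hg' : (1 : ℤ) ≤ g := by exact_mod_cast hg
  set k : ℤ := (a : ℤ) * g / b with hk
  obtain ⟨m, B, hm, h1, h2, hB⟩ := exists_pair (g : ℤ) k L hg' hL
  have hL0 : (0 : ℤ) < L := by exact_mod_cast hp.pos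
  lift m to ℕ using hm.le
  have hm' : 0 < m := by exact_mod_cast hm
  have hmL : m < L := by
    have : (2 : ℤ) * m ≤ L := by
      have : (2 : ℤ) * m ≤ (4 * g - 2) * m := mul_le_mul_of_nonneg_right (by linarith) hm.le
      linarith
    have h3 : (m : ℤ) < L := by linarith
    exact_mod_cast h3
  have hq0 : 0 < 4 * g ^ 2 := by positivity
  have cLq : Nat.Coprime L (4 * g ^ 2) :=
    (Nat.Prime.coprime_iff_not_dvd hp).2 fun h => absurd (Nat.le_of_dvd hq0 h) (not_le.2 hLq)
  have cLm : Nat.Coprime L m :=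
    (Nat.Prime.coprime_iff_not_dvd hp).2 fun h => absurd (Nat.le_of_dvd hm' h) (not_le.2 hmL)
  have cLq' : IsCoprime (L : ℤ) (4 * (g : ℤ) ^ 2) := by
    have := Nat.isCoprime_iff_coprime.2 cLq
    push_cast at this
    exact this
  have cqm : Nat.Coprime (4 * g ^ 2) m := by
    rw [← Nat.isCoprime_iff_coprime]
    obtain ⟨u, v, huv⟩ := cLq'
    refine ⟨u * B + v, -(u * (4 * g * k + 1)), ?_⟩
    push_cast
    rw [← hB] at huv
    linarith
  refine ⟨4 * g ^ 2, m, hq0, hm', cqm, cLm, cLq, ?_, ?_⟩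
  · intro s hs hs1
    have hs1' : (1 : ℤ) ≤ s := by exact_mod_cast hs1
    have hgap' : (g : ℤ) - c < ((a : ℤ) * g) % b := by
      by_contra hcon
      exact hgap (not_lt.1 hcon)
    obtain ⟨y, hy1, hy2⟩ := slope (a := a) (b := b) (c := c) (g := g) (s := s)
      (by exact_mod_cast hb) (by positivity) hg' hs1' hgap' hs
    obtain ⟨u, v, hu, hv, huv⟩ := mem_of_slope hg' hm h1 hB (by linarith) hy1 hy2
    rw [mem_closure_pair]
    lift u to ℕ using hu
    lift v to ℕ using hv
    exact ⟨u, v, by exact_mod_cast huv⟩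
  · intro hmem
    rw [mem_closure_pair] at hmem
    obtain ⟨u, v, huv⟩ := hmem
    refine not_mem_gap (u := u) (v := v) hg' hm hL0 h2 hB cLq' (by positivity) (by positivity) ?_
    exact_mod_cast huv

theorem nonneg_of_mem {a b c : ℕ} (hb : 0 < b) {x : ℤ} (hx : x ∈ T a b c) : 0 ≤ x := by
  have h1 : ((a : ℤ) * x) % (b : ℤ) ≤ x - c := hx
  have h2 := Int.emod_nonneg ((a : ℤ) * x) (show (b : ℤ) ≠ 0 by exact_mod_cast hb.ne')
  have h3 : (0 : ℤ) ≤ c := by positivity
  linarith

theorem mem_of_large {a b c : ℕ} (hb : 0 < b) {x : ℤ} (hx : (b : ℤ) + c ≤ x) : x ∈ T a b c := by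
  change ((a : ℤ) * x) % (b : ℤ) ≤ x - c
  have h2 := Int.emod_lt_of_pos ((a : ℤ) * x) (show (0 : ℤ) < b by exact_mod_cast hb)
  linarith

/-- Full answer to Q1: for all nonnegative integers `a, b, c` with `b ≠ 0`, the contracted modular
numerical semigroup `T(a,b,c) ∪ {0}` admits a Toms decomposition. -/
theorem result (a b c : ℕ) (hb : b ≠ 0) : HasTomsDecomposition (contracted a b c) := by
  classical
  have hb0 : 0 < b := Nat.pos_of_ne_zero hb
  set n := b + c + 1 with hn
  obtain ⟨L, hLge, hp⟩ := Nat.exists_infinite_primes (64 * n ^ 4 + 5)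
  have hbound : ∀ g : ℕ, 1 ≤ g → g < n →
      4 * (g : ℤ) ^ 2 * (4 * g - 1) * (4 * g - 2) ≤ L ∧ 4 * g ^ 2 < L := by
    intro g hg hgn
    have h1 : g ^ 4 ≤ n ^ 4 := Nat.pow_le_pow_left hgn.le 4
    have h2 : g ^ 2 ≤ g ^ 4 := Nat.pow_le_pow_right hg (by norm_num)
    constructor
    · have h3 : (64 * (g : ℤ) ^ 4) ≤ L := by
        have : 64 * g ^ 4 ≤ L := by omega
        exact_mod_cast this
      have hg' : (1 : ℤ) ≤ g := by exact_mod_cast hg
      have h4 : 4 * (g : ℤ) ^ 2 * (4 * g - 1) * (4 * g - 2) ≤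
          4 * (g : ℤ) ^ 2 * (4 * g) * (4 * g) := by
        have e1 : 0 ≤ 4 * (g : ℤ) ^ 2 := by positivity
        have e2 : 4 * (g : ℤ) ^ 2 * (4 * g - 1) ≤ 4 * (g : ℤ) ^ 2 * (4 * g) :=
          mul_le_mul_of_nonneg_left (by linarith) e1
        exact mul_le_mul e2 (by linarith) (by linarith) (by positivity)
      calc 4 * (g : ℤ) ^ 2 * (4 * g - 1) * (4 * g - 2)
          ≤ 4 * (g : ℤ) ^ 2 * (4 * g) * (4 * g) := h4
        _ = 64 * (g : ℤ) ^ 4 := by ring
        _ ≤ L := h3
    · omega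
  -- the pairs
  have hex : ∀ i : Fin n, ∃ q m : ℕ, 0 < q ∧ 0 < m ∧ Nat.Coprime q m ∧ Nat.Coprime L m ∧
      Nat.Coprime L q ∧
      (∀ s : ℕ, (s : ℤ) ∈ T a b c → 1 ≤ s → L * s ∈ AddSubmonoid.closure {q, m}) ∧
      (1 ≤ i.val → (i.val : ℤ) ∉ T a b c → L * i.val ∉ AddSubmonoid.closure {q, m}) := by
    intro i
    by_cases h : 1 ≤ i.val ∧ (i.val : ℤ) ∉ T a b c
    · obtain ⟨h1, h2⟩ := hbound i.val h.1 i.isLt
      obtain ⟨q, m, e1, e2, e3, e4, e5, e6, e7⟩ := one_gap a b c i.val L hb0 h.1 h.2 h1 h2 hp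
      exact ⟨q, m, e1, e2, e3, e4, e5, e6, fun _ _ => e7⟩
    · refine ⟨1, 1, one_pos, one_pos, by simp, by simp, by simp, ?_, fun h1 h2 => absurd ⟨h1, h2⟩ h⟩
      intro s _ _
      rw [mem_closure_pair]
      exact ⟨L * s, 0, by ring⟩
  choose q m h1 h2 h3 h4 h5 h6 h7 using hex
  refine ⟨L, n, q, m, hp.pos, by omega, fun i => ⟨h1 i, h2 i, h3 i, h4 i, h5 i⟩, ?_⟩
  ext x
  constructor
  · rintro (hx | hx)
    · have hx0 := nonneg_of_mem hb0 hx
      lift x to ℕ using hx0
      refine ⟨x, rfl, fun i => ?_⟩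
      rcases Nat.eq_zero_or_pos x with h | h
      · subst h
        rw [mul_zero]
        exact zero_mem _
      · exact h6 i x hx h
    · rw [Set.mem_singleton_iff] at hx
      refine ⟨0, by rw [hx]; rfl, fun i => ?_⟩
      rw [mul_zero]
      exact zero_mem _
  · rintro ⟨z, rfl, hz⟩
    rcases Nat.eq_zero_or_pos z with h | h
    · subst h
      right
      simp
    · left
      by_contra hcon
      rcases lt_or_ge z n with hlt | hge
      · exact h7 ⟨z, hlt⟩ h hcon (hz ⟨z, hlt⟩)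
      · apply hcon
        apply mem_of_large hb0
        have : b + c ≤ z := by omega
        exact_mod_cast this

end Pool.Agent.Results.MP_94066b_nt.AllTomsDecompositions
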